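import Mathlib

namespace Pool.Agent.Results.MP_ef9ba3_an.Counter

open scoped ENNReal

abbrev E (n : ℕ) : Type := EuclideanSpace ℝ (Fin n)

/-- The set of elements consistent with the data. -/
def Cons {n m : ℕ} (P : E n →ₗ[ℝ] E n) (Λ : E n →ₗ[ℝ] E m) (ε η : ℝ) (y : E m) : Set (E n) :=
  {f | ‖P f‖ ≤ ε ∧ ‖y - Λ f‖ ≤ η}

/-- `z` is a Chebyshev center of `K`. -/
def IsCheb {n : ℕ} (K : Set (E n)) (z : E n) : Prop :=
  ∀ w : E n, ⨆ f ∈ K, edist f z ≤ ⨆ f ∈ K, edist f w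

/-- The regularization functional. -/
noncomputable def F {n m : ℕ} (P : E n →ₗ[ℝ] E n) (Λ : E n →ₗ[ℝ] E m) (y : E m) (τ : ℝ)
    (f : E n) : ℝ :=
  (1 - τ) * ‖P f‖ ^ 2 + τ * ‖y - Λ f‖ ^ 2

noncomputable def P0 : E 2 →ₗ[ℝ] E 2 where
  toFun f := !₂[f 0 + f 1, f 1]
  map_add' f g := by ext i; fin_cases i <;> simp; ring
  map_smul' c f := by ext i; fin_cases i <;> simp; ring

noncomputable def L0 : E 2 →ₗ[ℝ] E 1 where
  toFun f := !₂[f 0 - 2 * f 1]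
  map_add' f g := by ext i; fin_cases i; simp; ring
  map_smul' c f := by ext i; fin_cases i; simp; ring

lemma nP (f : E 2) : ‖P0 f‖ ^ 2 = (f 0 + f 1) ^ 2 + f 1 ^ 2 := by
  simp [EuclideanSpace.real_norm_sq_eq, P0]

lemma nL (f : E 2) : ‖(!₂[4] : E 1) - L0 f‖ ^ 2 = (4 - (f 0 - 2 * f 1)) ^ 2 := by
  simp [EuclideanSpace.real_norm_sq_eq, L0]

lemma nd (f g : E 2) : dist f g ^ 2 = (f 0 - g 0) ^ 2 + (f 1 - g 1) ^ 2 := by
  simp [dist_eq_norm, EuclideanSpace.real_norm_sq_eq]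

lemma mem_iff (f : E 2) : f ∈ Cons P0 L0 (√2) 2 !₂[4] ↔
    (f 0 + f 1) ^ 2 + f 1 ^ 2 ≤ 2 ∧ (4 - (f 0 - 2 * f 1)) ^ 2 ≤ 2 ^ 2 := by
  rw [Cons, Set.mem_ofPred_eq, Real.le_sqrt (norm_nonneg _) (by norm_num), nP, ← nL,
    sq_le_sq₀ (norm_nonneg _) (by norm_num)]

lemma rad : ⨆ f ∈ Cons P0 L0 (√2) 2 !₂[4], edist f (!₂[1, -1] : E 2) ≤ 1 := by
  refine iSup₂_le fun f hf => ?_
  obtain ⟨h1, h2⟩ := (mem_iff f).1 hf
  have h3 : 2 ≤ f 0 - 2 * f 1 := by nlinarith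
  rw [edist_dist, ENNReal.ofReal_le_one, ← sq_le_one_iff₀ dist_nonneg, nd]
  simp only [Fin.isValue, Matrix.cons_val_zero, Matrix.cons_val_one]
  set u := f 0
  set v := f 1
  rcases le_total 0 (v + 1) with a | a <;> rcases le_total 0 (2 * u + v - 3) with b | b
  · nlinarith [mul_nonneg a b]
  · nlinarith [mul_nonneg (by linarith : 0 ≤ 3 - 2 * u - v) (by linarith : 0 ≤ u - 2 * v - 2),
      mul_nonneg a (by linarith : 0 ≤ 3 - 2 * u - v),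
      mul_nonneg a (by linarith : 0 ≤ u - 2 * v - 2)]
  · nlinarith [sq_nonneg (u + v - 1), sq_nonneg (v + 1)]
  · nlinarith [mul_nonneg_of_nonpos_of_nonpos a b]

lemma hp : (!₂[0, -1] : E 2) ∈ Cons P0 L0 (√2) 2 !₂[4] := by
  rw [mem_iff]; norm_num

lemma hq : (!₂[2, -1] : E 2) ∈ Cons P0 L0 (√2) 2 !₂[4] := by
  rw [mem_iff]; norm_num

lemma two (w : E 2) {r : ℝ} (hr : 0 ≤ r)
    (h : ⨆ f ∈ Cons P0 L0 (√2) 2 !₂[4], edist f w ≤ ENNReal.ofReal r) :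
    (w 0 - 1) ^ 2 + (w 1 + 1) ^ 2 + 1 ≤ r ^ 2 := by
  have a := (le_iSup₂ (f := fun f (_ : f ∈ Cons P0 L0 (√2) 2 !₂[4]) => edist f w) _ hp).trans h
  have b := (le_iSup₂ (f := fun f (_ : f ∈ Cons P0 L0 (√2) 2 !₂[4]) => edist f w) _ hq).trans h
  rw [edist_dist, ENNReal.ofReal_le_ofReal_iff hr, ← sq_le_sq₀ dist_nonneg hr, nd] at a b
  simp only [Fin.isValue, Matrix.cons_val_zero, Matrix.cons_val_one] at a b
  nlinarith

theorem result : ∃ (P : E 2 →ₗ[ℝ] E 2) (Λ : E 2 →ₗ[ℝ] E 1) (ε η : ℝ) (y : E 1),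
    0 < ε ∧ 0 < η ∧ LinearMap.ker P ⊓ LinearMap.ker Λ = ⊥ ∧ (Cons P Λ ε η y).Nonempty ∧
    (∃ z, IsCheb (Cons P Λ ε η y) z) ∧ ∀ z, IsCheb (Cons P Λ ε η y) z →
      ∀ τ ∈ Set.Icc (0 : ℝ) 1, ∃ f, F P Λ y τ f < F P Λ y τ z := by
  refine ⟨P0, L0, √2, 2, !₂[4], by positivity, two_pos, ?_, ⟨_, hp⟩, ⟨!₂[1, -1], fun w => ?_⟩,
    fun z hz τ hτ => ⟨!₂[13 / 10, -9 / 10], ?_⟩⟩
  · rw [eq_bot_iff]
    intro f hf
    have h := nP f
    rw [show P0 f = 0 from hf.1, norm_zero] at h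
    have h1 : f 1 = 0 := by nlinarith [sq_nonneg (f 0 + f 1), sq_nonneg (f 1)]
    have h0 : f 0 = 0 := by rw [h1] at h; nlinarith [sq_nonneg (f 0)]
    ext i
    fin_cases i <;> simp [h0, h1]
  · refine rad.trans (le_of_forall_gt_imp_ge_of_dense fun r hr => ?_)
    by_contra h
    have h1 : r < 1 := not_le.1 h
    have h2 := two w ENNReal.toReal_nonneg (by rw [ENNReal.ofReal_toReal h1.ne_top]; exact hr.le)
    have h3 : r.toReal < 1 := by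
      simpa using (ENNReal.toReal_lt_toReal h1.ne_top ENNReal.one_ne_top).2 h1
    nlinarith [sq_nonneg (w 0 - 1), sq_nonneg (w 1 + 1), ENNReal.toReal_nonneg (a := r)]
  · have h := two z zero_le_one (by simpa using (hz _).trans rad)
    have h0 : z 0 = 1 := by nlinarith [sq_nonneg (z 0 - 1), sq_nonneg (z 1 + 1)]
    have h1 : z 1 = -1 := by nlinarith [sq_nonneg (z 0 - 1), sq_nonneg (z 1 + 1)]
    simp only [F, nP, nL, h0, h1, Fin.isValue, Matrix.cons_val_zero, Matrix.cons_val_one]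
    nlinarith [hτ.1, hτ.2]

end Pool.Agent.Results.MP_ef9ba3_an.Counter
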